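import Pool.Agent.N709.UM.Stm2

set_option autoImplicit false

/-!
Leaf RM2 of project UM2 (helper709): removal of the letters of largest index by conjugation.
-/

open Pool.Agent.N709.UM

universe u

namespace Pool.Agent.N466.UM2RM2

theorem cnt_inl {G : Type u} (j : ℕ) (u : G) (w : List (G ⊕ (ℕ × Bool))) :
    cnt j (Sum.inl u :: w) = cnt j w := rfl

theorem cnt_inr {G : Type u} (j i : ℕ) (s : Bool) (w : List (G ⊕ (ℕ × Bool))) :
    cnt j (Sum.inr (i, s) :: w) = (if i ≤ j then 1 else 0) + cnt j w := rfl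

theorem ev_inl {G : Type u} [Group G] (y : ℕ → G) (u : G) (w : List (G ⊕ (ℕ × Bool))) :
    ev y (Sum.inl u :: w) = u * ev y w := rfl

theorem ev_inr {G : Type u} [Group G] (y : ℕ → G) (j : ℕ) (s : Bool)
    (w : List (G ⊕ (ℕ × Bool))) :
    ev y (Sum.inr (j, s) :: w) = (if s then y j else (y j)⁻¹) * ev y w := rfl

theorem bel_tail {G : Type u} {k : ℕ} {a : G ⊕ (ℕ × Bool)} {w : List (G ⊕ (ℕ × Bool))}
    (h : Bel k (a :: w)) : Bel k w := fun j s hj => h j s (List.mem_cons_of_mem _ hj)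

theorem bel_inl {G : Type u} {k : ℕ} {a : G} {w : List (G ⊕ (ℕ × Bool))}
    (h : Bel k w) : Bel k (Sum.inl a :: w) := by
  intro j s hj
  rcases List.mem_cons.1 hj with h1 | h1
  · cases h1
  · exact h j s h1

theorem bel_inr {G : Type u} {k i : ℕ} {b : Bool} {w : List (G ⊕ (ℕ × Bool))}
    (hi : i < k) (h : Bel k w) : Bel k (Sum.inr (i, b) :: w) := by
  intro j s hj
  rcases List.mem_cons.1 hj with h1 | h1
  · cases h1
    exact hi
  · exact h j s h1

theorem sm_tail {G : Type u} {ρ : G → ℝ} {r : ℝ} {a : G ⊕ (ℕ × Bool)}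
    {w : List (G ⊕ (ℕ × Bool))} (h : Sm ρ r (a :: w)) : Sm ρ r w :=
  fun u hu => h u (List.mem_cons_of_mem _ hu)

theorem sm_inl {G : Type u} {ρ : G → ℝ} {r : ℝ} {a : G} {w : List (G ⊕ (ℕ × Bool))}
    (ha : ρ a < r) (h : Sm ρ r w) : Sm ρ r (Sum.inl a :: w) := by
  intro u hu
  rcases List.mem_cons.1 hu with h1 | h1
  · cases h1
    exact ha
  · exact h u h1

theorem sm_inr {G : Type u} {ρ : G → ℝ} {r : ℝ} {p : ℕ × Bool} {w : List (G ⊕ (ℕ × Bool))}
    (h : Sm ρ r w) : Sm ρ r (Sum.inr p :: w) := by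
  intro u hu
  rcases List.mem_cons.1 hu with h1 | h1
  · cases h1
  · exact h u h1

theorem sm_mono {G : Type u} {ρ : G → ℝ} {r r' : ℝ} {w : List (G ⊕ (ℕ × Bool))}
    (h : r ≤ r') (hw : Sm ρ r w) : Sm ρ r' w := fun u hu => (hw u hu).trans_le h

/-- conjugation of a word -/
theorem conj {G : Type u} [Group G] (ρ : G → ℝ) (r R t : ℝ) (ht : 0 ≤ t) (hR : r ≤ R)
    (y : ℕ → G) (k : ℕ) (g : G) (h1 : ∀ c, ρ (g * c * g⁻¹) ≤ ρ c + t)
    (h2 : ∀ j, j < k → ∀ c, (c = y j ∨ c = (y j)⁻¹) → ρ (g * c * g⁻¹ * c⁻¹) < r)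
    (w : List (G ⊕ (ℕ × Bool))) :
    Bel k w → Sm ρ R w → ∃ w1 : List (G ⊕ (ℕ × Bool)), Bel k w1 ∧ (∀ j, cnt j w1 = cnt j w) ∧
      Sm ρ (R + t) w1 ∧ ev y w1 = g * ev y w * g⁻¹ := by
  induction w with
  | nil =>
    intro _ _
    refine ⟨[], ?_, fun j => rfl, ?_, ?_⟩
    · intro j s hj
      cases hj
    · intro u hu
      cases hu
    · simp [ev]
  | cons a w ih =>
    intro hB hS
    obtain ⟨w1, b1, b2, b3, b4⟩ := ih (bel_tail hB) (sm_tail hS)
    rcases a with u | ⟨j, s⟩
    · refine ⟨Sum.inl (g * u * g⁻¹) :: w1, bel_inl b1, ?_, sm_inl ?_ b3, ?_⟩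
      · intro i
        rw [cnt_inl, cnt_inl, b2 i]
      · have := hS u List.mem_cons_self
        have := h1 u
        linarith
      · rw [ev_inl, ev_inl, b4]
        group
    · have hj : j < k := hB j s List.mem_cons_self
      have hc : (if s then y j else (y j)⁻¹) = y j ∨ (if s then y j else (y j)⁻¹) = (y j)⁻¹ := by
        cases s <;> simp
      have hc2 := h2 j hj _ hc
      refine ⟨Sum.inl (g * (if s then y j else (y j)⁻¹) * g⁻¹ *
        (if s then y j else (y j)⁻¹)⁻¹) :: Sum.inr (j, s) :: w1, bel_inl (bel_inr hj b1), ?_,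
        sm_inl ?_ (sm_inr b3), ?_⟩
      · intro i
        rw [cnt_inl, cnt_inr, cnt_inr, b2 i]
      · linarith
      · rw [ev_inl, ev_inr, ev_inr, b4]
        generalize (if s then y j else (y j)⁻¹) = c
        group

theorem rm2 : Rm2.{u} := by
  intro G _ ρ _ r t ht y k h1 h2 w
  induction w with
  | nil =>
    intro _ _
    refine ⟨[], 0, ?_, fun j _ => le_rfl, ?_, ?_, ?_⟩
    · intro j s hj
      cases hj
    · simp [cnt]
    · intro u hu
      cases hu
    · simp [ev]
  | cons a w ih =>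
    intro hB hS
    obtain ⟨w', M, b1, b2, b3, b4, b5⟩ := ih (bel_tail hB) (sm_tail hS)
    have hct : 0 ≤ (cnt k w : ℝ) * t := mul_nonneg (Nat.cast_nonneg _) ht
    rcases a with u | ⟨j, s⟩
    · refine ⟨Sum.inl u :: w', M, bel_inl b1, ?_, ?_, ?_, ?_⟩
      · intro i hi
        rw [cnt_inl, cnt_inl]
        exact b2 i hi
      · rw [cnt_inl]
        exact b3
      · rw [cnt_inl]
        refine sm_inl ?_ b4
        have := hS u List.mem_cons_self
        linarith
      · rw [ev_inl, ev_inl, b5, mul_assoc]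
    · have hj : j < k + 1 := hB j s List.mem_cons_self
      have hjk : j ≤ k := Nat.lt_succ_iff.1 hj
      rcases lt_or_eq_of_le hjk with hlt | heq
      · refine ⟨Sum.inr (j, s) :: w', M, bel_inr hlt b1, ?_, ?_, ?_, ?_⟩
        · intro i hi
          rw [cnt_inr, cnt_inr]
          have := b2 i hi
          omega
        · rw [cnt_inr, if_pos hjk]
          omega
        · rw [cnt_inr, if_pos hjk]
          refine sm_inr (sm_mono ?_ b4)
          push_cast
          linarith
        · rw [ev_inr, ev_inr, b5, mul_assoc]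
      · subst heq
        have key : ∃ (w1 : List (G ⊕ (ℕ × Bool))) (M' : ℤ), Bel j w1 ∧
            (∀ i, cnt i w1 = cnt i w') ∧ Sm ρ (r + (cnt j w : ℝ) * t + t) w1 ∧
            M'.natAbs ≤ M.natAbs + 1 ∧
            (if s then y j else (y j)⁻¹) * (ev y w' * y j ^ M) = ev y w1 * y j ^ M' := by
          rcases s with _ | _
          · obtain ⟨w1, c1, c2, c3, c4⟩ := conj ρ r (r + (cnt j w : ℝ) * t) t ht (by linarith) y j
              (y j)⁻¹ (fun c => by rw [inv_inv]; exact (h1 c).2)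
              (fun i hi c hc => by rw [inv_inv]; exact (h2 i hi c hc).2) w' b1 b4
            refine ⟨w1, M - 1, c1, c2, c3, by omega, ?_⟩
            simp only [Bool.false_eq_true, if_false]
            rw [c4, zpow_sub_one, ← (Commute.zpow_right (Commute.refl (y j)) M).inv_left.eq]
            group
          · obtain ⟨w1, c1, c2, c3, c4⟩ := conj ρ r (r + (cnt j w : ℝ) * t) t ht (by linarith) y j
              (y j) (fun c => (h1 c).1)
              (fun i hi c hc => (h2 i hi c hc).1) w' b1 b4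
            refine ⟨w1, M + 1, c1, c2, c3, by omega, ?_⟩
            simp only [if_true]
            rw [c4, zpow_add_one, ← (Commute.zpow_right (Commute.refl (y j)) M).eq]
            group
        obtain ⟨w1, M', c1, c2, c3, c4, c5⟩ := key
        refine ⟨w1, M', c1, ?_, ?_, ?_, ?_⟩
        · intro i hi
          rw [cnt_inr, c2 i]
          have := b2 i hi
          omega
        · rw [cnt_inr, if_pos le_rfl]
          omega
        · rw [cnt_inr, if_pos le_rfl]
          refine sm_mono ?_ c3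
          push_cast
          linarith
        · rw [ev_inr, b5, c5]

end Pool.Agent.N466.UM2RM2
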